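import Pool.Agent.H367.OS.GWu
import Pool.Graph.R_pool_sql_team_seeded_2aa45f1a.Results.MP_537ea0_ag.CodimensionByCodimension

/-!
# The rational Abel-Jacobi map over `ℚ̄` in one codimension and one sequence of cubics

A relation `r` of size `m` is one of the equations `x_i x_j = x_l`, `x_i + x_j = x_l`, `x_i = 1` with
`i, j, l < m`; the relations are numbered, the number of `r` is `ν(r)` (`relNum`). Let `G_m` be the
following polynomial with integral coefficients (`univG ℤ m`). There are variables `x_i` and `z_ij` for
`i, j < m`, a variable `c_r` for every relation `r`, and variables `y_{r,l}` for all relations `r` and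
`l < (m + 1) 2 ^ ν(r)`. The equations (`eqnG`) are

  `z_ij - x_i x_j`,  `c_r ^ 2 - c_r`,  `c_r ρ_r`,  `(1 - c_r) y_{r,l}`,

where `ρ_r` is the linear polynomial `z_ij - x_l`, `x_i + x_j - x_l` or `x_i - 1` of the relation.
`G_m` is the sum of the equations multiplied by further variables `t_e`, one for each equation. It has
degree three. Let `C_m` be the affine cubic hypersurface `G_m = 1` (`cubG R m` over the ring `R`); it is
smooth over the integers.

For a smooth projective scheme `Y` over `ℚ` let `A^n(Y) = CH^n(Y_ℚ̄; ℚ)`, and let `B^n(Y)` be the image
of `A^n(Y)` in the Deligne cohomology `H^{2n}_D(Y_ℂ, ℚ(n))`. The kernel of the surjection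
`A^n(Y) → B^n(Y)` is the kernel of `Φ_{n,ℚ} : CH^n_hom(Y_ℚ̄; ℚ) → J^n(Y(ℂ)) ⊗ ℚ`. Both are additive
functors of the Chow motive of `Y`.

For a separated scheme `X` of finite type over `ℚ` let `W(X)` be the weight complex (Gillet, Soulé; a
complex of Chow motives over `ℚ` with rational coefficients, for the cohomology with compact supports;
`W(X) = h(X)` for smooth projective `X`), and put `A^{n,i}(X) = H^i(A^n(W(X)))` and
`B^{n,i}(X) = H^i(B^n(W(X)))`. `BijAt C Prod.fst n X` says that the maps `A^{n,i}(X) → B^{n,i}(X)` are
isomorphisms for this `n` and all `i`. For smooth projective `Y` it says that `Φ_{n,ℚ}` is injective for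
`Y_ℚ̄`. Every smooth projective variety over `ℚ̄` is an open and closed subscheme of `Y_ℚ̄` for a smooth
projective scheme `Y` over `ℚ`.

**Theorem.** Let `E_m` be the number of the equations, and for `N ∈ ℕ` let
`idx m n N = n + (m + 1) N + E_m - 1`.

(1) For every `n`, the map `Φ_{n,ℚ}` is injective for all smooth projective varieties over `ℚ̄` if and
only if the maps `A^{idx m n N, i}(C_m) → B^{idx m n N, i}(C_m)` are isomorphisms for all `N` and `i`, for
infinitely many `m`. The first open case is `n = 2`.

(2) The hypersurfaces `C_m` decide the statements (`Decides`): for every affine scheme `Spec B` of finite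
type over `ℚ` and all large `m` there is an `N` such that for `0 ≤ n ≤ m` the statement with the index
`n` for `Spec B` is equivalent to the one with the index `idx m n N` for `C_m`; and for every separated
scheme `X` of finite type and all large `m`, the statements for `C_m` imply the statements for `X`.

(3) For `n ≤ 1` (divisors) the maps with the indices `idx m n N` are isomorphisms for `C_m`, for all
`m ≥ 1` and `N`.

(4) `G_m` has integral coefficients and degree at most three, and `C_m` is smooth over all rings.

The hypotheses are standard: localisation sequences, affine bundles and products with `𝔾_m`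
(`IsWeightPair`); the weight complex of a scheme of dimension at most `d` consists of direct factors of
motives of smooth projective varieties of dimension at most `d`, so that the groups vanish outside of
the codimensions `0, …, d` (`PVanish`, `GenAt`).
The data of the problem (`AbelJacobi`, `Describes`, `ProjectiveCase`) are those of the library's theorem
`CodimensionByCodimension`.

Idea of the proof. The projection of `C_m` to the affine space with the coordinates `x, z, c, y` is an
affine bundle over the complement of the zero set `W_m` of the equations. The scheme `W_m` is the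
disjoint union, over all sets `s` of relations (`c_r = 1` for `r ∈ s` and `c_r = 0` for the others), of
the products `X_s × 𝔸 ^ ((m + 1) N(s))`, where `X_s` is the affine scheme defined by the relations in
`s` and `N(s) = ∑_{r ∈ s} 2 ^ ν(r)`. The numbers `N(s)` are different, and the dimension of `X_s` is at
most `m`. So the invariant of `W_m` with the index `q + (m + 1) N(s)`, `0 ≤ q ≤ m`, is the invariant of
`X_s` with the index `q`; the other components do not contribute. Every affine scheme of finite type
over a prime field is an `X_s`, for all large `m`.

The universal system of relations is the one of helper854 (`Pool.Agent.H854.SQ`).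
-/

set_option autoImplicit false

open CategoryTheory CategoryTheory.Limits AlgebraicGeometry Pool.Agent.Y116.UV Pool.Agent.Z125.UN
  Pool.Agent.Q193.LT Pool.Agent.Q49.WU Pool.Agent.H854.SQ Pool.Agent.H367.OS
  Pool.Agent.Results.MP_537ea0_ag.CodimensionByCodimension

universe w w'



namespace Pool.Agent.Results.MP_537ea0_ag.OneSequenceOverTheIntegers

/-- **The rational Abel-Jacobi map over `ℚ̄` and one sequence of cubic hypersurfaces over the
integers.** See the explanations above. Known cases that are used: the point, and the indices
`N ≤ 1` (divisors). -/
theorem result {D : AbelJacobi.{w'}} {C : PairData.{w} ℚ (ℤ × ℤ) ℚ} (h : Describes D C)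
    (weight : IsWeightPair C) (vanish : PVanish C Prod.fst) (generated : GenAt C Prod.fst)
    (point : BijAll C (aff ℚ ℚ))
    (divisors : ∀ N : ℤ, N ≤ 1 → ∀ Y : Sch ℚ, SmoothProj Y → BijAt C Prod.fst N Y) :
    (∀ n : ℕ, ProjectiveCase D n ↔
      ∃ᶠ m in Filter.atTop, ∀ N : ℕ, BijAt C Prod.fst (idx m n N) (cubG ℚ m)) ∧
    Decides (BijAt C Prod.fst) ∧
    (∀ n : ℕ, n ≤ 1 → ∀ m, 1 ≤ m → ∀ N : ℕ, BijAt C Prod.fst (idx m n N) (cubG ℚ m)) ∧
    ∀ m : ℕ, (univG ℤ m).totalDegree ≤ 3 ∧
      ∀ (R : Type) [CommRing R], MvPolynomial.map (Int.castRingHom R) (univG ℤ m) = univG R m ∧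
        Smooth (cubG R m).hom := by
  have hd : Decides (BijAt C Prod.fst) :=
    decides_pair isPrimeField_rat generated weight graded_weight vanish point
  refine ⟨fun n => (h.descent n).trans (Iff.trans ?_ ((hd.index n).out 1 0)), hd,
    fun n hn m hm N => ?_, cubG_facts⟩
  · exact ⟨fun g Y hY => (h.kernel n Y hY).mp (g Y hY),
      fun g Y hY => (h.kernel n Y hY).mpr (g Y hY)⟩
  · exact known_indices (graduated_pair weight graded_weight vanish point)
      (generated n) (divisors n (by exact_mod_cast hn)) (hn.trans hm) N

end Pool.Agent.Results.MP_537ea0_ag.OneSequenceOverTheIntegers
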